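import Mathlib
import Pool.Agent.Results.MP_1f8704_gt.LinearCondensation

/-!
Linear continuous surjections of spaces of continuous functions with the topology of pointwise
convergence preserve Lusin spaces.

If `X` is a Lusin space (the image of a Polish space under a continuous bijection) and `C_p(X)`
admits a continuous linear surjection onto `C_p(Y)` (`X`, `Y` Tychonoff), then `Y` is a Lusin space.
More precisely, if `X` is the image of a second countable space `M` under a continuous bijection,
then `Y` is a countable disjoint union of continuous injective images of the sets of normal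
representations in closed subspaces of `ℝ^n × M^n`.
-/

set_option autoImplicit false

namespace Pool.Agent.Results.MP_1f8704_gt.BorelClasses

open Set Filter Topology TopologicalSpace
open Pool.Agent.Results.MP_1f8704_gt.LinearCondensation

universe u v w

section Net

variable {X : Type u} [TopologicalSpace X] {M : Type w} [TopologicalSpace M] {p : M → X}

/-- The members of the countable network of `C_p(X)`. -/
def netSet' (p : M → X) (t : (Set M) × ℚ × ℚ) : Set (Cp X) :=
  {f | ∀ z ∈ t.1, (t.2.1 : ℝ) < (f : X → ℝ) (p z) ∧ (f : X → ℝ) (p z) < (t.2.2 : ℝ)}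

variable [SecondCountableTopology M]

/-- The countable family generating a topology finer than that of `C_p(X)`. -/
def netFam' (p : M → X) : Set (Set (Cp X)) :=
  netSet' p '' (countableBasis M ×ˢ (univ ×ˢ univ))

lemma netFam'_countable : (netFam' p).Countable :=
  ((countable_countableBasis _).prod (countable_univ.prod countable_univ)).image _

lemma netFam'_le (hp : Continuous p) (hs : Function.Surjective p) :
    generateFrom (netFam' p) ≤ (instTopologicalSpaceSubtype : TopologicalSpace (Cp X)) := by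
  have key : ∀ x : X, @Continuous _ _ (generateFrom (netFam' p)) _
      (fun f : Cp X => (f : X → ℝ) x) := by
    intro x
    obtain ⟨z, rfl⟩ := hs x
    rw [@IsTopologicalBasis.continuous_iff _ _ (generateFrom (netFam' p)) _ _
      Real.isTopologicalBasis_Ioo_rat]
    intro s hs'
    simp only [mem_iUnion, mem_singleton_iff] at hs'
    obtain ⟨a, b, hab, rfl⟩ := hs'
    have : (fun f : Cp X => (f : X → ℝ) (p z)) ⁻¹' Ioo (a : ℝ) b =
        ⋃ U ∈ {U | U ∈ countableBasis M ∧ z ∈ U}, netSet' p (U, a, b) := by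
      ext f
      simp only [mem_preimage, mem_iUnion]
      constructor
      · intro hf
        have ho : IsOpen ((fun z => (f : X → ℝ) (p z)) ⁻¹' Ioo (a : ℝ) b) :=
          isOpen_Ioo.preimage (f.2.comp hp)
        obtain ⟨U, hU, hzU, hUs⟩ := (isBasis_countableBasis M).exists_subset_of_mem_open
          (show z ∈ _ from hf) ho
        exact ⟨U, ⟨hU, hzU⟩, fun w hw => hUs hw⟩
      · rintro ⟨U, ⟨_, hzU⟩, hf⟩
        exact hf z hzU
    rw [this]
    refine @isOpen_biUnion _ _ (generateFrom (netFam' p)) _ _ ?_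
    rintro U ⟨hU, _⟩
    apply isOpen_generateFrom_of_mem
    exact ⟨(U, a, b), ⟨hU, trivial, trivial⟩, rfl⟩
  rw [← continuous_id_iff_le]
  refine continuous_induced_rng.mpr ?_
  exact (@continuous_pi_iff _ _ _ (generateFrom (netFam' p)) _ _).mpr key

/-- `C_p(X)` is hereditarily separable when `X` is a continuous image of a second countable
space. -/
lemma exists_countable_dense'' (hp : Continuous p) (hs : Function.Surjective p) (A : Set (Cp X)) :
    ∃ D ⊆ A, D.Countable ∧ A ⊆ closure D :=
  dense_of_finer (generateFrom (netFam' p)) _ (netFam'_le hp hs)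
    (@SecondCountableTopology.mk _ (generateFrom (netFam' p)) ⟨netFam' p, netFam'_countable, rfl⟩) A

end Net

section Main

variable {X : Type u} {Y : Type v} {M : Type w} [TopologicalSpace X] [TopologicalSpace Y]
  [TopologicalSpace M] {p : M → X}

/-- If every continuous function converges along an ultrafilter on `Y`, then the ultrafilter
converges. -/
lemma ultrafilter_converges' [SecondCountableTopology M] [CompletelyRegularSpace Y]
    (hp : Continuous p)
    (hs : Function.Surjective p) (L : Cp X →ₗ[ℝ] Cp Y) (hL : Continuous L)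
    (hsurj : Function.Surjective L) (U : Ultrafilter Y)
    (hU : ∀ g : Cp Y, ∃ c : ℝ, Tendsto (g : Y → ℝ) U (𝓝 c)) : ∃ y, (U : Filter Y) ≤ 𝓝 y := by
  by_contra hno
  push Not at hno
  -- functions vanishing near the ultrafilter
  let A : Set (Cp X) := {f | (∀ y, 0 ≤ (L f : Y → ℝ) y ∧ (L f : Y → ℝ) y ≤ 1) ∧
    ∀ᶠ y in (U : Filter Y), (L f : Y → ℝ) y = 0}
  have hA : ∀ y, ∃ f ∈ A, (L f : Y → ℝ) y = 1 := by
    intro y
    have h1 := hno y
    rw [(nhds_basis_opens y).ge_iff] at h1
    push Not at h1
    obtain ⟨O, ⟨hyO, hO⟩, hOU⟩ := h1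
    obtain ⟨g, hg, hg01, hgy, hgO⟩ := exists_sep hO hyO
    obtain ⟨f, hf⟩ := hsurj ⟨g, hg⟩
    have hfg : (L f : Y → ℝ) = g := by rw [hf]
    refine ⟨f, ⟨?_, ?_⟩, ?_⟩
    · rw [hfg]
      exact hg01
    · rw [hfg]
      have : Oᶜ ∈ U := Ultrafilter.compl_mem_iff_notMem.mpr hOU
      exact mem_of_superset this hgO
    · rw [hfg]
      exact hgy
  obtain ⟨D, hDA, hDc, hD⟩ := exists_countable_dense'' hp hs A
  have hDy : ∀ y, ∃ f ∈ D, 0 < (L f : Y → ℝ) y := by
    intro y
    obtain ⟨f, hfA, hf1⟩ := hA y
    have ho : IsOpen {f : Cp X | 0 < (L f : Y → ℝ) y} :=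
      isOpen_Ioi.preimage ((continuous_ev y).comp hL)
    obtain ⟨d, hd1, hd2⟩ := mem_closure_iff.mp (hD hfA) _ ho
      (by change 0 < (L f : Y → ℝ) y; rw [hf1]; exact one_pos)
    exact ⟨d, hd2, hd1⟩
  have hne : D.Nonempty := by
    obtain ⟨y⟩ := (U : Filter Y).nonempty_of_neBot
    obtain ⟨f, hf, _⟩ := hDy y
    exact ⟨f, hf⟩
  obtain ⟨d, hd⟩ := hDc.exists_eq_range hne
  have hdA : ∀ n, d n ∈ A := fun n => hDA (hd ▸ mem_range_self n)
  set h : Y → ℝ := fun y => ∑' n : ℕ, (1 / 2 : ℝ) ^ n * (L (d n) : Y → ℝ) y with hh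
  have hgeo : Summable (fun n : ℕ => (1 / 2 : ℝ) ^ n) := summable_geometric_two
  have hbd : ∀ n y, ‖(1 / 2 : ℝ) ^ n * (L (d n) : Y → ℝ) y‖ ≤ (1 / 2 : ℝ) ^ n := by
    intro n y
    have h1 := (hdA n).1 y
    rw [norm_mul, Real.norm_of_nonneg (by positivity), Real.norm_of_nonneg h1.1]
    exact mul_le_of_le_one_right (by positivity) h1.2
  have hcont : Continuous h := by
    apply continuous_tsum (fun n => continuous_const.mul (L (d n)).2) hgeo hbd
  have hpos : ∀ y, 0 < h y := by
    intro y
    obtain ⟨f, hf, hfy⟩ := hDy y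
    rw [hd] at hf
    obtain ⟨n, rfl⟩ := hf
    have hsum : Summable (fun n : ℕ => (1 / 2 : ℝ) ^ n * (L (d n) : Y → ℝ) y) :=
      Summable.of_norm_bounded hgeo (fun n => hbd n y)
    apply hsum.tsum_pos (fun i => mul_nonneg (by positivity) ((hdA i).1 y).1) n
    exact mul_pos (by positivity) hfy
  have hlim : Tendsto h U (𝓝 0) := by
    have := tendsto_tsum_of_dominated_convergence (𝓕 := (U : Filter Y))
      (f := fun y n => (1 / 2 : ℝ) ^ n * (L (d n) : Y → ℝ) y) (g := fun _ => (0 : ℝ)) hgeo
      (fun n => ?_) (Eventually.of_forall fun y n => hbd n y)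
    · rwa [tsum_zero] at this
    · apply Tendsto.congr' _ tendsto_const_nhds
      filter_upwards [(hdA n).2] with y hy
      rw [hy, mul_zero]
  obtain ⟨c, hc⟩ := hU ⟨fun y => (h y)⁻¹, hcont.inv₀ fun y => (hpos y).ne'⟩
  have h1 : Tendsto (fun y => h y * (h y)⁻¹) U (𝓝 (0 * c)) := hlim.mul hc
  have h2 : Tendsto (fun y => h y * (h y)⁻¹) U (𝓝 1) := by
    apply Tendsto.congr _ tendsto_const_nhds
    intro y
    exact (mul_inv_cancel₀ (hpos y).ne').symm
  have := tendsto_nhds_unique h1 h2
  simp at this

/-- Evaluation of a finite linear combination of point evaluations, with points taken in the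
space `M`. -/
def comb' (p : M → X) (n : ℕ) (w : (Fin n → ℝ) × (Fin n → M)) (f : Cp X) : ℝ :=
  ∑ i, w.1 i * (f : X → ℝ) (p (w.2 i))

lemma continuous_comb' (hp : Continuous p) (n : ℕ) (f : Cp X) :
    Continuous fun w => comb' p n w f := by
  unfold comb'
  refine continuous_finsetSum _ fun i _ => ?_
  refine ((continuous_apply i).comp continuous_fst).mul ?_
  exact f.2.comp (hp.comp ((continuous_apply i).comp continuous_snd))

/-- The parameters representing the functional of a point of `Y`. -/
def good' (p : M → X) (L : Cp X →ₗ[ℝ] Cp Y) (n : ℕ) : Set ((Fin n → ℝ) × (Fin n → M)) :=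
  {w | ∃ y : Y, ∀ f : Cp X, (L f : Y → ℝ) y = comb' p n w f}

lemma good'_closed [SecondCountableTopology M] [CompletelyRegularSpace Y] (hp : Continuous p)
    (hs : Function.Surjective p) (L : Cp X →ₗ[ℝ] Cp Y) (hL : Continuous L)
    (hsurj : Function.Surjective L) (n : ℕ) : IsClosed (good' p L n) := by
  rw [isClosed_iff_ultrafilter]
  intro w u hu hmem
  obtain ⟨w₀, y₀, _⟩ := u.nonempty_of_mem hmem
  classical
  let F : (Fin n → ℝ) × (Fin n → M) → Y := fun w =>
    if h : w ∈ good' p L n then h.choose else y₀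
  have hF : ∀ w ∈ good' p L n, ∀ f : Cp X, (L f : Y → ℝ) (F w) = comb' p n w f := by
    intro w hw
    simp only [F, dif_pos hw]
    exact hw.choose_spec
  have hlim : ∀ f : Cp X, Tendsto (fun y => (L f : Y → ℝ) y) (u.map F) (𝓝 (comb' p n w f)) := by
    intro f
    rw [Ultrafilter.coe_map, tendsto_map'_iff]
    have h1 : Tendsto (fun w => comb' p n w f) u (𝓝 (comb' p n w f)) :=
      ((continuous_comb' hp n f).tendsto w).mono_left hu
    apply h1.congr'
    filter_upwards [hmem] with w' hw'
    exact (hF w' hw' f).symm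
  obtain ⟨y, hy⟩ := ultrafilter_converges' hp hs L hL hsurj (u.map F) (by
    intro g
    obtain ⟨f, rfl⟩ := hsurj g
    exact ⟨_, hlim f⟩)
  refine ⟨y, fun f => ?_⟩
  have h2 : Tendsto (fun y => (L f : Y → ℝ) y) (u.map F) (𝓝 ((L f : Y → ℝ) y)) :=
    ((L f).2.tendsto y).mono_left hy
  exact tendsto_nhds_unique h2 (hlim f)

/-- Points of `Y` are determined by the values of the functions `L f`. -/
lemma point_unique [T35Space Y] (L : Cp X →ₗ[ℝ] Cp Y) (hsurj : Function.Surjective L) {y y' : Y}
    (h : ∀ f : Cp X, (L f : Y → ℝ) y = (L f : Y → ℝ) y') : y = y' := by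
  by_contra hne
  obtain ⟨g, hg, _, hg1, hg0⟩ := exists_sep (isOpen_compl_singleton (x := y'))
    (show y ∈ ({y'}ᶜ : Set Y) from fun e => hne e)
  obtain ⟨f, hf⟩ := hsurj ⟨g, hg⟩
  have hfg : (L f : Y → ℝ) = g := by rw [hf]
  have h1 := h f
  rw [hfg, hg1, hg0 _ (fun h => h rfl)] at h1
  exact one_ne_zero h1

/-- The maps onto the pieces of `Y`, with the closed sets of parameters. -/
theorem pieces [SecondCountableTopology M] [T35Space Y] [Nonempty Y] (hp : Continuous p)
    (hs : Function.Surjective p) (L : Cp X →ₗ[ℝ] Cp Y) (hL : Continuous L)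
    (hsurj : Function.Surjective L) :
    ∃ F : ∀ n : ℕ, (Fin n → ℝ) × (Fin n → M) → Y,
      (∀ n, IsClosed (good' p L n)) ∧ (∀ n, ContinuousOn (F n) (good' p L n)) ∧
      (∀ n, ∀ w ∈ good' p L n, ∀ f : Cp X, (L f : Y → ℝ) (F n w) = comb' p n w f) ∧
      (⋃ n, F n '' good' p L n) = univ := by
  obtain ⟨y₀⟩ := ‹Nonempty Y›
  classical
  let F : ∀ n : ℕ, (Fin n → ℝ) × (Fin n → M) → Y := fun n w =>
    if h : w ∈ good' p L n then h.choose else y₀
  have hF : ∀ n, ∀ w ∈ good' p L n, ∀ f : Cp X, (L f : Y → ℝ) (F n w) = comb' p n w f := by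
    intro n w hw
    simp only [F, dif_pos hw]
    exact hw.choose_spec
  refine ⟨F, good'_closed hp hs L hL hsurj, ?_, hF, ?_⟩
  · intro n w hw
    rw [ContinuousWithinAt, (nhds_basis_opens (F n w)).tendsto_right_iff]
    rintro O ⟨hwO, hO⟩
    obtain ⟨g, hg, _, hg1, hg0⟩ := exists_sep hO hwO
    obtain ⟨f, hf⟩ := hsurj ⟨g, hg⟩
    have hfg : (L f : Y → ℝ) = g := by rw [hf]
    have h1 : comb' p n w f = 1 := by
      rw [← hF n w hw f, hfg, hg1]
    have h2 : ∀ᶠ w' in 𝓝[good' p L n] w, 0 < comb' p n w' f := by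
      apply ((continuous_comb' hp n f).tendsto w).mono_left nhdsWithin_le_nhds |>.eventually
      exact lt_mem_nhds (by rw [h1]; exact one_pos)
    filter_upwards [h2, self_mem_nhdsWithin] with w' h3 h4
    by_contra h5
    rw [← hF n w' h4 f, hfg, hg0 _ h5] at h3
    exact lt_irrefl _ h3
  · rw [eq_univ_iff_forall]
    intro y
    obtain ⟨n, c, x, hφ⟩ := functional_eq ((ev y).comp L) ((continuous_ev y).comp hL)
    choose z hz using fun i => hs (x i)
    have hw : ∀ f : Cp X, (L f : Y → ℝ) y = comb' p n (c, z) f := by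
      intro f
      have := hφ f
      simp only [LinearMap.comp_apply, ev_apply] at this
      rw [this]
      simp [comb', hz]
    have hmem : (c, z) ∈ good' p L n := ⟨y, hw⟩
    refine mem_iUnion.mpr ⟨n, (c, z), hmem, ?_⟩
    exact point_unique L hsurj fun f => by rw [hF n _ hmem f, hw f]

end Main

section Lusin

variable {X : Type u} {Y : Type v} {P : Type w} [TopologicalSpace X] [TopologicalSpace Y]
  {p : P → X}

/-- The formal linear combination of points of `P` given by coefficients and points. -/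
noncomputable def fs (n : ℕ) (w : (Fin n → ℝ) × (Fin n → P)) : P →₀ ℝ :=
  ∑ i, Finsupp.single (w.2 i) (w.1 i)

/-- The value of a formal combination at a function. -/
noncomputable def val (p : P → X) (a : P →₀ ℝ) (f : Cp X) : ℝ :=
  a.sum fun z c => c * (f : X → ℝ) (p z)

lemma val_fs (p : P → X) (n : ℕ) (w : (Fin n → ℝ) × (Fin n → P)) (f : Cp X) :
    val p (fs n w) f = comb' p n w f := by
  classical
  unfold val fs comb'
  rw [← Finsupp.sum_finset_sum_index (fun _ => by ring) (fun _ _ _ => by ring)]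
  refine Finset.sum_congr rfl fun i _ => ?_
  rw [Finsupp.sum_single_index (by ring)]

/-- In a Tychonoff space the evaluations at distinct points are linearly independent. -/
lemma val_inj [T35Space X] (hp : Function.Injective p) {a b : P →₀ ℝ}
    (h : ∀ f : Cp X, val p a f = val p b f) : a = b := by
  classical
  rw [← sub_eq_zero]
  have h0 : ∀ f : Cp X, val p (a - b) f = 0 := by
    intro f
    have : val p (a - b) f = val p a f - val p b f := by
      unfold val
      rw [Finsupp.sum_sub_index (fun _ _ _ => by ring)]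
    rw [this, h f, sub_self]
  ext z
  by_contra hz
  change (a - b) z ≠ 0 at hz
  set d := a - b with hd
  have hzs : z ∈ d.support := Finsupp.mem_support_iff.2 hz
  -- a function which is one at `p z` and zero at the other points of the support
  have hfin : (p '' ((d.support.erase z : Finset P) : Set P)).Finite :=
    (Finset.finite_toSet _).image p
  have ho : IsOpen (p '' ((d.support.erase z : Finset P) : Set P))ᶜ :=
    hfin.isClosed.isOpen_compl
  have hzo : p z ∈ (p '' ((d.support.erase z : Finset P) : Set P))ᶜ := by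
    rintro ⟨y, hy, hyz⟩
    have := hp hyz
    subst this
    exact Finset.notMem_erase y d.support hy
  obtain ⟨g, hg, _, hg1, hg0⟩ := exists_sep ho hzo
  have h1 := h0 ⟨g, hg⟩
  unfold val at h1
  rw [Finsupp.sum, ← Finset.add_sum_erase _ _ hzs] at h1
  have h2 : ∑ x ∈ d.support.erase z, d x * g (p x) = 0 := by
    refine Finset.sum_eq_zero fun x hx => ?_
    rw [hg0 (p x) (fun hc => hc ⟨x, hx, rfl⟩), mul_zero]
  change d z * g (p z) + ∑ x ∈ d.support.erase z, d x * g (p x) = 0 at h1
  rw [h2, hg1, mul_one, add_zero] at h1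
  exact hz h1

variable {e : P → ℝ}

lemma fs_apply (n : ℕ) (w : (Fin n → ℝ) × (Fin n → P)) (hw : Function.Injective w.2)
    (i : Fin n) : fs n w (w.2 i) = w.1 i := by
  classical
  unfold fs
  rw [Finsupp.finsetSum_apply]
  rw [Finset.sum_eq_single i]
  · exact Finsupp.single_eq_same
  · intro j _ hj
    exact Finsupp.single_eq_of_ne (fun h => hj (hw h).symm)
  · intro h
    exact absurd (Finset.mem_univ i) h

lemma fs_apply_notMem (n : ℕ) (w : (Fin n → ℝ) × (Fin n → P)) {z : P} (hz : z ∉ range w.2) :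
    fs n w z = 0 := by
  classical
  unfold fs
  rw [Finsupp.finsetSum_apply]
  refine Finset.sum_eq_zero fun i _ => ?_
  exact Finsupp.single_eq_of_ne (fun h => hz ⟨i, h.symm⟩)

lemma fs_support [DecidableEq P] (n : ℕ) (w : (Fin n → ℝ) × (Fin n → P))
    (hw : Function.Injective w.2) (h0 : ∀ i, w.1 i ≠ 0) :
    (fs n w).support = Finset.univ.image w.2 := by
  ext z
  rw [Finsupp.mem_support_iff, Finset.mem_image]
  constructor
  · intro h
    by_contra hc
    push Not at hc
    exact h (fs_apply_notMem n w (by rintro ⟨i, hi⟩; exact hc i (Finset.mem_univ i) hi))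
  · rintro ⟨i, _, rfl⟩
    rw [fs_apply n w hw]
    exact h0 i

/-- The normal representations: nonzero coefficients and increasing points. -/
def nf (e : P → ℝ) (n : ℕ) : Set ((Fin n → ℝ) × (Fin n → P)) :=
  {w | (∀ i, w.1 i ≠ 0) ∧ StrictMono (e ∘ w.2)}

lemma nf_eq {n m : ℕ} {w : (Fin n → ℝ) × (Fin n → P)} {w' : (Fin m → ℝ) × (Fin m → P)}
    (he : Function.Injective e) (hw : w ∈ nf e n) (hw' : w' ∈ nf e m) (h : fs n w = fs m w') :
    (⟨n, w⟩ : Σ n : ℕ, (Fin n → ℝ) × (Fin n → P)) = ⟨m, w'⟩ := by
  classical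
  have hi : Function.Injective w.2 := Function.Injective.of_comp (f := e) hw.2.injective
  have hi' : Function.Injective w'.2 := Function.Injective.of_comp (f := e) hw'.2.injective
  have h1 := fs_support n w hi hw.1
  have h2 := fs_support m w' hi' hw'.1
  rw [h, h2] at h1
  have h3 : n = m := by
    have := congrArg Finset.card h1
    rw [Finset.card_image_of_injective _ hi, Finset.card_image_of_injective _ hi'] at this
    simpa using this.symm
  subst h3
  have h4 : range (e ∘ w.2) = range (e ∘ w'.2) := by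
    rw [range_comp, range_comp]
    congr 1
    have := congrArg (fun s : Finset P => (s : Set P)) h1
    simpa using this.symm
  have h5 : e ∘ w.2 = e ∘ w'.2 := (StrictMono.range_inj hw.2 hw'.2).1 h4
  have h6 : w.2 = w'.2 := by
    funext i
    exact he (congrFun h5 i)
  have h7 : w.1 = w'.1 := by
    funext i
    rw [← fs_apply n w hi i, h, h6, fs_apply n w' hi' i]
  have h8 : w = w' := Prod.ext h7 h6
  rw [h8]

/-- Every formal combination has a normal representation. -/
lemma exists_nf (he : Function.Injective e) (b : P →₀ ℝ) : ∃ n, ∃ w ∈ nf e n, fs n w = b := by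
  classical
  set T : Finset ℝ := b.support.image e with hT
  have hmem : ∀ i : Fin T.card, ∃ z ∈ b.support, e z = T.orderEmbOfFin rfl i := by
    intro i
    exact Finset.mem_image.1 (T.orderEmbOfFin_mem rfl i)
  choose z hz hze using hmem
  have hmono : StrictMono (e ∘ z) := by
    intro i j hij
    change e (z i) < e (z j)
    rw [hze i, hze j]
    exact (T.orderEmbOfFin rfl).strictMono hij
  have hinj : Function.Injective z := Function.Injective.of_comp (f := e) hmono.injective
  refine ⟨T.card, (fun i => b (z i), z), ⟨fun i => Finsupp.mem_support_iff.1 (hz i), hmono⟩, ?_⟩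
  have himg : Finset.univ.image z = b.support := by
    apply Finset.eq_of_subset_of_card_le
    · intro x hx
      obtain ⟨i, _, rfl⟩ := Finset.mem_image.1 hx
      exact hz i
    · rw [Finset.card_image_of_injective _ hinj, Finset.card_univ, Fintype.card_fin, hT,
        Finset.card_image_of_injective _ he]
  ext x
  by_cases hx : x ∈ b.support
  · rw [← himg] at hx
    obtain ⟨i, _, rfl⟩ := Finset.mem_image.1 hx
    exact fs_apply T.card (fun i => b (z i), z) hinj i
  · rw [Finsupp.notMem_support_iff.1 hx]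
    apply fs_apply_notMem
    rintro ⟨i, rfl⟩
    exact hx (hz i)

lemma nf_measurable [MeasurableSpace P] (he : Measurable e) (n : ℕ) : MeasurableSet (nf e n) := by
  have h : nf e n = (⋂ i, {w : (Fin n → ℝ) × (Fin n → P) | w.1 i ≠ 0}) ∩
      ⋂ i, ⋂ j, ⋂ (_ : i < j), {w : (Fin n → ℝ) × (Fin n → P) | e (w.2 i) < e (w.2 j)} := by
    ext w
    simp only [nf, mem_ofPred_eq, mem_inter_iff, mem_iInter]
    exact Iff.rfl
  rw [h]
  refine MeasurableSet.inter (MeasurableSet.iInter fun i => ?_)
    (MeasurableSet.iInter fun i => MeasurableSet.iInter fun j => MeasurableSet.iInter fun _ => ?_)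
  · have h1 : Measurable fun w : (Fin n → ℝ) × (Fin n → P) => w.1 i :=
      (measurable_pi_apply i).comp measurable_fst
    exact (h1 (measurableSet_singleton (0 : ℝ))).compl
  · exact measurableSet_lt (he.comp ((measurable_pi_apply i).comp measurable_snd))
      (he.comp ((measurable_pi_apply j).comp measurable_snd))

end Lusin

/-- A Lusin space: the image of a Polish space under a continuous bijection. -/
def IsLusin (X : Type u) [TopologicalSpace X] : Prop :=
  ∃ (P : Type) (_ : TopologicalSpace P) (p : P → X),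
    PolishSpace P ∧ Continuous p ∧ Function.Bijective p

/-- `C_p(X)` admits a continuous linear surjection onto `C_p(Y)`. -/
def LinearSurjection (X : Type u) (Y : Type v) [TopologicalSpace X] [TopologicalSpace Y] : Prop :=
  ∃ L : Cp X →ₗ[ℝ] Cp Y, Continuous L ∧ Function.Surjective L

section Assembly

variable {X : Type u} {Y : Type v} [TopologicalSpace X] [TopologicalSpace Y]

/-- A Borel subset of a Polish space is Polish in a finer topology. -/
lemma finer_polish {W : Type} [tW : TopologicalSpace W] [PolishSpace W] [MeasurableSpace W]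
    [BorelSpace W] {B : Set W} (hB : MeasurableSet B) {F : W → Y} (hF : ContinuousOn F B) :
    ∃ tB : TopologicalSpace B, @PolishSpace B tB ∧ @Continuous B Y tB _ (fun w => F w.1) := by
  have h1 : Continuous (fun w : B => F w.1) := continuousOn_iff_continuous_domRestrict.1 hF
  have h2 : ∀ t' : TopologicalSpace W, t' ≤ tW →
      @Continuous B Y (t'.induced Subtype.val) _ (fun w : B => F w.1) := fun t' ht' =>
    continuous_le_dom (induced_mono ht') h1
  obtain ⟨t', hle, hpol, hclosed, -⟩ := hB.isClopenable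
  exact ⟨t'.induced Subtype.val, @IsClosed.polishSpace _ t' hpol _ hclosed, h2 t' hle⟩

/-- A countable union of injective pieces over Borel sets is a Lusin space. -/
lemma lusin_of_pieces {W : ℕ → Type} [∀ n, TopologicalSpace (W n)] [∀ n, PolishSpace (W n)]
    [∀ n, MeasurableSpace (W n)] [∀ n, BorelSpace (W n)] (B : ∀ n, Set (W n))
    (hB : ∀ n, MeasurableSet (B n)) (F : ∀ n, W n → Y) (hF : ∀ n, ContinuousOn (F n) (B n))
    (hinj : ∀ n m, ∀ w ∈ B n, ∀ w' ∈ B m, F n w = F m w' →
      (⟨n, w⟩ : Σ n, W n) = ⟨m, w'⟩)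
    (hcov : ∀ y, ∃ n, ∃ w ∈ B n, F n w = y) : IsLusin Y := by
  have hcl := fun n => finer_polish (hB n) (hF n)
  choose tB hpB hcB using hcl
  letI : ∀ n, TopologicalSpace (B n) := tB
  haveI : ∀ n, PolishSpace (B n) := hpB
  refine ⟨Σ n, B n, inferInstance, fun x => F x.1 x.2.1, inferInstance, ?_, ?_, ?_⟩
  · exact continuous_sigma fun n => hcB n
  · rintro ⟨n, w, hw⟩ ⟨m, w', hw'⟩ h
    have h2 := hinj n m w hw w' hw' h
    rw [Sigma.mk.injEq] at h2
    obtain ⟨rfl, h3⟩ := h2
    rw [heq_eq_eq] at h3
    subst h3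
    rfl
  · intro y
    obtain ⟨n, w, hw, hy⟩ := hcov y
    exact ⟨⟨n, w, hw⟩, hy⟩

lemma lusin_of_surjection [T35Space X] [T35Space Y] (hX : IsLusin X)
    (h : LinearSurjection X Y) : IsLusin Y := by
  obtain ⟨L, hL, hsurj⟩ := h
  obtain ⟨P, tP, p, hP, hp, hbij⟩ := hX
  rcases isEmpty_or_nonempty Y with hY | hY
  · exact ⟨Empty, ⊥, fun x => x.elim, by
      letI : TopologicalSpace Empty := ⊥
      haveI : DiscreteTopology Empty := ⟨rfl⟩
      infer_instance, by
      letI : TopologicalSpace Empty := ⊥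
      exact continuous_bot, ⟨fun x => x.elim, fun y => (hY.false y).elim⟩⟩
  letI : MeasurableSpace P := borel P
  haveI : BorelSpace P := ⟨rfl⟩
  obtain ⟨e, he⟩ := MeasureTheory.exists_measurableEmbedding_real P
  obtain ⟨F, hcl, hFc, hF, hcov⟩ := pieces hp hbij.2 L hL hsurj
  refine lusin_of_pieces (W := fun n => (Fin n → ℝ) × (Fin n → P))
    (fun n => good' p L n ∩ nf e n) (fun n => ?_) F (fun n => ?_) ?_ ?_
  · exact (hcl n).measurableSet.inter (nf_measurable he.measurable n)
  · exact (hFc n).mono inter_subset_left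
  · rintro n m w ⟨hw1, hw2⟩ w' ⟨hw1', hw2'⟩ heq
    refine nf_eq he.injective hw2 hw2' ?_
    refine val_inj hbij.1 fun f => ?_
    rw [val_fs, val_fs, ← hF n w hw1 f, ← hF m w' hw1' f, heq]
  · intro y
    have hy : y ∈ ⋃ n, F n '' good' p L n := by
      rw [hcov]
      exact mem_univ y
    obtain ⟨n, w, hw, rfl⟩ := mem_iUnion.1 hy
    obtain ⟨m, w', hw', hfs⟩ := exists_nf he.injective (fs n w)
    have hval : ∀ f : Cp X, (L f : Y → ℝ) (F n w) = comb' p m w' f := by
      intro f
      rw [hF n w hw f, ← val_fs, ← val_fs, hfs]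
    have hg : w' ∈ good' p L m := ⟨F n w, hval⟩
    refine ⟨m, w', ⟨hg, hw'⟩, ?_⟩
    exact point_unique L hsurj fun f => by rw [hF m w' hg f, hval f]

end Assembly

/-- Let `X`, `Y` be Tychonoff spaces such that `C_p(X)` admits a continuous linear surjection onto
`C_p(Y)`.
(1) If `X` is a Lusin space (the image of a Polish space under a continuous bijection), so is `Y`.
(2) Let `M` be second countable, `p : M → X` a continuous bijection, `e : M → ℝ` injective and `Y`
nonempty. Then there are closed sets `G n` in `ℝ^n × M^n` and maps `F n` into `Y`, continuous on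
`G n`, such that the restrictions of the `F n` to the normal representations in `G n` (nonzero
coefficients and `e`-increasing points) are injective with disjoint images that cover `Y`. -/
theorem result {X : Type u} {Y : Type v} [TopologicalSpace X] [TopologicalSpace Y]
    [T35Space X] [T35Space Y] (h : LinearSurjection X Y) :
    (IsLusin X → IsLusin Y) ∧
    (Nonempty Y → ∀ (M : Type w) [TopologicalSpace M] [SecondCountableTopology M] (p : M → X)
      (e : M → ℝ), Continuous p → Function.Bijective p → Function.Injective e →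
        ∃ (G : ∀ n : ℕ, Set ((Fin n → ℝ) × (Fin n → M)))
          (F : ∀ n : ℕ, (Fin n → ℝ) × (Fin n → M) → Y),
          (∀ n, IsClosed (G n)) ∧ (∀ n, ContinuousOn (F n) (G n)) ∧
          (∀ n m, ∀ w ∈ G n ∩ nf e n, ∀ w' ∈ G m ∩ nf e m, F n w = F m w' →
            (⟨n, w⟩ : Σ n : ℕ, (Fin n → ℝ) × (Fin n → M)) = ⟨m, w'⟩) ∧
          (∀ y, ∃ n, ∃ w ∈ G n ∩ nf e n, F n w = y)) := by
  refine ⟨fun hX => lusin_of_surjection hX h, ?_⟩
  obtain ⟨L, hL, hsurj⟩ := h
  intro hY M _ _ p e hp hbij he
  obtain ⟨F, hcl, hFc, hF, hcov⟩ := pieces hp hbij.2 L hL hsurj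
  refine ⟨good' p L, F, hcl, hFc, ?_, ?_⟩
  · rintro n m w ⟨hw1, hw2⟩ w' ⟨hw1', hw2'⟩ heq
    refine nf_eq he hw2 hw2' ?_
    refine val_inj hbij.1 fun f => ?_
    rw [val_fs, val_fs, ← hF n w hw1 f, ← hF m w' hw1' f, heq]
  · intro y
    have hy : y ∈ ⋃ n, F n '' good' p L n := by
      rw [hcov]
      exact mem_univ y
    obtain ⟨n, w, hw, rfl⟩ := mem_iUnion.1 hy
    obtain ⟨m, w', hw', hfs⟩ := exists_nf he (fs n w)
    have hval : ∀ f : Cp X, (L f : Y → ℝ) (F n w) = comb' p m w' f := by
      intro f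
      rw [hF n w hw f, ← val_fs, ← val_fs, hfs]
    have hg : w' ∈ good' p L m := ⟨F n w, hval⟩
    refine ⟨m, w', ⟨hg, hw'⟩, ?_⟩
    exact point_unique L hsurj fun f => by rw [hF m w' hg f, hval f]

end Pool.Agent.Results.MP_1f8704_gt.BorelClasses
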