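import Pool.Agent.Y302.LC.Surj
import Pool.Agent.H568.NC.Asm

/-!
# Function spaces with the topology of pointwise convergence: maps of `C_p(X)` onto `C_p(Y)`

Both questions in a stronger form.

* Linear maps (Q1): one continuous linear surjection `C_p(X) → C_p(Y)` presents `Y` as a countable
  union of continuous images of closed subspaces of the spaces `ℝ^n × X^n`, as soon as `Y` is
  realcompact; this holds whenever `Y` is Lindelöf, and whenever all finite powers of `X` are
  hereditarily Lindelöf (then `Y` is Lindelöf).  So every property of spaces which is inherited by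
  closed subspaces, continuous images, the products `ℝ^n × Z^n` and countable unions passes from
  `X` to `Y`; analyticity does so without any further assumption.
* Nonlinear maps (Q2): for every subspace `Y` of the Cantor set there are a countable Tychonoff
  space `X` and a Tychonoff space `Z` with a closed copy of `Y` whose function spaces condense onto
  each other.  So no property which all countable spaces have, which is inherited by closed
  subspaces and which fails for some subspace of the Cantor set is preserved.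
-/

set_option autoImplicit false

namespace Pool.Agent.Results.MP_1f8704_gt.LinearSurjections

open Set Filter Topology Pool.Agent.H568.NC Pool.Agent.Y302.LC

universe u v

lemma exists_condensation {X Z : Type} [TopologicalSpace X] [TopologicalSpace Z]
    {A : Set (X → ℝ)} {B : Set (Z → ℝ)} (hA : ∀ f, Continuous f ↔ f ∈ A)
    (hB : ∀ f, Continuous f ↔ f ∈ B) (h : Cd A B) : ∃ φ : Cp X → Cp Z, IsCondensation φ := by
  obtain ⟨f, hf, bf⟩ := h
  have hm : ∀ x : Cp X, Continuous (f x.1) := fun x => (hB _).2 (bf.mapsTo ((hA _).1 x.2))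
  refine ⟨fun x => ⟨f x.1, hm x⟩, ?_, ?_, ?_⟩
  · refine Continuous.subtype_mk ?_ _
    exact hf.comp_continuous continuous_subtype_val fun x => (hA _).1 x.2
  · intro x y hxy
    exact Subtype.ext (bf.injOn ((hA _).1 x.2) ((hA _).1 y.2) (congrArg Subtype.val hxy))
  · rintro ⟨z, hz⟩
    obtain ⟨x, hx, hxz⟩ := bf.surjOn ((hB _).1 hz)
    exact ⟨⟨x, (hA _).2 hx⟩, Subtype.ext hxz⟩

/-- The construction of the nonlinear condensations, for any subspace `Y` of the Cantor set. -/
lemma nonlinear (Y : Set (ℕ → Bool)) :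
    ∃ (X Z : Type) (_ : TopologicalSpace X) (_ : TopologicalSpace Z),
      T35Space X ∧ T35Space Z ∧ Countable X ∧ Nonempty X ∧
      (∃ e : Y → Z, IsClosedEmbedding e) ∧
      (∃ φ : Cp X → Cp Z, IsCondensation φ) ∧ (∃ ψ : Cp Z → Cp X, IsCondensation ψ) := by
  obtain ⟨tM, hM1, hM2, hM3⟩ := exists_M Y
  obtain ⟨tX, hX1, hX2⟩ := exists_filterSpace (FJ Y) (FJ_le Y)
  have hA : ∀ f : Option JJ → ℝ, @Continuous _ _ tX _ f ↔ f ∈ CX Y := hX2
  have hB : ∀ f : (ℕ ⊕ Y) ⊕ Option JJ → ℝ, Continuous f ↔ f ∈ CZ Y := by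
    intro f
    rw [continuous_sum_dom]
    refine and_congr ?_ ?_
    · exact hM2 (f ∘ Sum.inl)
    · exact hA (f ∘ Sum.inr)
  refine ⟨Option JJ, (ℕ ⊕ Y) ⊕ Option JJ, tX, inferInstance, hX1, t35Space_sum, inferInstance,
    inferInstance, ?_, ?_, ?_⟩
  · exact ⟨fun y => Sum.inl (Sum.inr y), IsClosedEmbedding.inl.comp hM3⟩
  · exact exists_condensation hA hB (cd_X_Z Y)
  · exact exists_condensation hB hA (cd_Z_X Y)

/-- A countable nonempty space is analytic. -/
lemma analytic_of_countable (X : Type) [TopologicalSpace X] [Countable X] [Nonempty X] :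
    IsAnalytic X := by
  obtain ⟨e, he⟩ := exists_surjective_nat X
  refine ⟨fun n => e (n 0), ?_, fun x => ?_⟩
  · exact (continuous_of_discreteTopology (f := e)).comp (continuous_apply 0)
  · obtain ⟨k, hk⟩ := he x
    exact ⟨fun _ => k, hk⟩

/-- The assumption on `X` and `Y`: `Y` is realcompact, or Lindelöf, or all finite powers of `X` are
hereditarily Lindelöf. -/
def Admissible (X : Type u) (Y : Type v) [TopologicalSpace X] [TopologicalSpace Y] : Prop :=
  IsRealcompact Y ∨ LindelofSpace Y ∨ ∀ n : ℕ, HereditarilyLindelofSpace (Fin n → X)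

/-- There is a continuous linear surjection of `C_p(X)` onto `C_p(Y)`. -/
def LinearOnto (X : Type u) (Y : Type v) [TopologicalSpace X] [TopologicalSpace Y] : Prop :=
  ∃ L : Cp X →ₗ[ℝ] Cp Y, Continuous L ∧ Function.Surjective L

/-- There is a linear condensation of `C_p(X)` onto `C_p(Y)`. -/
def LinearCondenses (X : Type u) (Y : Type v) [TopologicalSpace X] [TopologicalSpace Y] : Prop :=
  ∃ L : Cp X →ₗ[ℝ] Cp Y, IsCondensation L

/-- `C_p(X)` and `C_p(Z)` condense onto each other. -/
def Mutual (X Z : Type) [TopologicalSpace X] [TopologicalSpace Z] : Prop :=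
  (∃ φ : Cp X → Cp Z, IsCondensation φ) ∧ (∃ ψ : Cp Z → Cp X, IsCondensation ψ)

/-- `Y` is a countable union of continuous images `F n (G n)` of closed subspaces `G n` of the
spaces `ℝ^n × X^n`. -/
def Presented (X : Type u) (Y : Type v) [TopologicalSpace X] [TopologicalSpace Y] : Prop :=
  ∃ (G : ∀ n : ℕ, Set ((Fin n → ℝ) × (Fin n → X))) (F : ∀ n, G n → Y),
    (∀ n, IsClosed (G n)) ∧ (∀ n, Continuous (F n)) ∧ ∀ y, ∃ n, ∃ w : G n, F n w = y

/-- (1) Structure of `Y` for a continuous linear surjection `C_p(X) → C_p(Y)`. -/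
def StructureTheorem : Prop :=
  ∀ (X : Type u) (Y : Type v) [TopologicalSpace X] [TopologicalSpace Y] [T35Space X]
    [T35Space Y], Admissible X Y → LinearOnto X Y → Presented X Y

/-- (2) Transfer of properties along a continuous linear surjection. -/
def TransferTheorem : Prop :=
  ∀ (P : ∀ (Z : Type u) [TopologicalSpace Z], Prop), IsSigmaClass P →
    ∀ (X Y : Type u) [TopologicalSpace X] [TopologicalSpace Y] [T35Space X] [T35Space Y],
      Admissible X Y → LinearOnto X Y → P X → P Y

/-- (3), (4) Analyticity: one continuous linear surjection, or one linear condensation, is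
enough. -/
def AnalyticTheorem : Prop :=
  ∀ (X : Type u) (Y : Type v) [TopologicalSpace X] [TopologicalSpace Y] [T35Space X]
    [T35Space Y], IsAnalytic X → ((Nonempty Y ∧ LinearOnto X Y) ∨ LinearCondenses X Y) →
    IsAnalytic Y

/-- (5) Nonlinear condensations, for every subspace `Y` of the Cantor set. -/
def NonlinearTheorem : Prop :=
  ∀ Y : Set (ℕ → Bool), ∃ (X Z : Type) (_ : TopologicalSpace X) (_ : TopologicalSpace Z),
    T35Space X ∧ T35Space Z ∧ Countable X ∧ Nonempty X ∧
    (∃ e : Y → Z, IsClosedEmbedding e) ∧ Mutual X Z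

/-- (6) Many properties are not preserved by nonlinear condensations in both directions. -/
def NoPreservation : Prop :=
  ∀ (P : ∀ (Z : Type) [TopologicalSpace Z], Prop),
    (∀ (Z : Type) [TopologicalSpace Z] [T35Space Z], Countable Z → Nonempty Z → P Z) →
    (∀ (Z : Type) [TopologicalSpace Z] [T35Space Z] (Y : Set (ℕ → Bool)) (e : Y → Z),
      IsClosedEmbedding e → P Z → P Y) →
    (∃ Y : Set (ℕ → Bool), ¬ P Y) →
    ∃ (X Z : Type) (_ : TopologicalSpace X) (_ : TopologicalSpace Z),
      T35Space X ∧ T35Space Z ∧ P X ∧ ¬ P Z ∧ Mutual X Z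

/-- (7) The negative answer to Q2. -/
def NegativeQ2 : Prop :=
  ∃ (X Z : Type) (_ : TopologicalSpace X) (_ : TopologicalSpace Z),
    T35Space X ∧ T35Space Z ∧ Countable X ∧ IsAnalytic X ∧ ¬ IsAnalytic Z ∧ Mutual X Z

/-- **Main theorem.** -/
theorem result :
    StructureTheorem.{u, v} ∧ TransferTheorem.{u} ∧ AnalyticTheorem.{u, v} ∧
      NonlinearTheorem ∧ NoPreservation ∧ NegativeQ2 := by
  refine ⟨?_, ?_, ?_, ?_, ?_, ?_⟩
  · rintro X Y _ _ _ _ h ⟨L, hL, hs⟩
    refine structure_of_realcompact ?_ L hL hs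
    rcases h with h | h | h
    · exact h
    · exact realcompact_of_lindelof
    · have := lindelof_of_surjective h L hL hs
      exact realcompact_of_lindelof
  · rintro P hP X Y _ _ _ _ h ⟨L, hL, hs⟩ hX
    refine transfer hP ?_ L hL hs hX
    rcases h with h | h | h
    · exact h
    · exact realcompact_of_lindelof
    · have := lindelof_of_surjective h L hL hs
      exact realcompact_of_lindelof
  · rintro X Y _ _ _ _ hX (⟨hY, L, hL, hs⟩ | ⟨L, hL, hbij⟩)
    · exact analytic_of_surjection hX L hL hs
    · have hY : Nonempty Y := by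
        by_contra hemp
        rw [not_nonempty_iff] at hemp
        obtain ⟨p, _, _⟩ := id hX
        have h1 : (⟨fun _ => (1 : ℝ), continuous_const⟩ : Cp X) = 0 := by
          apply hbij.1
          ext y
          exact hemp.elim y
        have h2 := congrArg (fun f : Cp X => (f : X → ℝ) (p 0)) h1
        simp at h2
      exact analytic_of_surjection hX L hL hbij.2
  · intro Y
    exact nonlinear Y
  · rintro P hP1 hP2 ⟨Y, hY⟩
    obtain ⟨X, Z, tX, tZ, hX, hZ, hc, hne, ⟨e, he⟩, hφ, hψ⟩ := nonlinear Y
    exact ⟨X, Z, tX, tZ, hX, hZ, hP1 X hc hne, fun hPZ => hY (hP2 Z Y e he hPZ), hφ, hψ⟩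
  · obtain ⟨Y, hY⟩ := exists_not_analyticSet
    obtain ⟨X, Z, tX, tZ, hX, hZ, hc, hne, ⟨e, he⟩, hφ, hψ⟩ := nonlinear Y
    exact ⟨X, Z, tX, tZ, hX, hZ, hc, analytic_of_countable X,
      not_analytic_of_isClosedEmbedding hY e he, hφ, hψ⟩

end Pool.Agent.Results.MP_1f8704_gt.LinearSurjections
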